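import Pool.Agent.X264.KF.Partner

/-!
# Derived equivalent varieties and Kimura-finiteness

`C` and `D` are `ℚ`-linear symmetric monoidal categories, `D` is rigid, its unit object has only
rational scalars as endomorphisms, `R` is a symmetric monoidal additive functor from `D` to finite
dimensional super vector spaces, and `π : C ⥤ D` is a faithful symmetric monoidal functor with
`Weights`: the realisation of `π M` is graded by weights, and the morphisms from `π M` to `π N` have
parts of degree zero, which are morphisms from `M` to `N`.

For the problem, `C` is the category of Chow motives over the field `k` with rational coefficients,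
`D` the category of noncommutative Chow motives, `R` is (topological) periodic cyclic homology, and
`π` sends the motive of `X` to the noncommutative motive of the dg category of perfect complexes on
`X`; a morphism from `π M` to `π N` is a finite sum of morphisms from `M` to Tate twists `N(i)`. If
`X` and `X'` are derived equivalent then `π h(X)` and `π h(X')` are isomorphic.

Theorem. Let `π M` and `π N` be isomorphic. (1) `M` is Kimura-finite if and only if `N` is.
(2) Suppose that `M` is Kimura-finite. Then `M` and `N` are isomorphic if they are isomorphic modulo
morphisms with vanishing realisation; and they are isomorphic if and only if some isomorphism of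
`π M` and `π N` preserves the weights of the realisations.

So Kimura-finiteness of the Chow motive is invariant under derived equivalences. If `X` and `X'` are
derived equivalent and `h(X)` is Kimura-finite, then `h(X)` and `h(X')` are isomorphic if their
homological motives are (for hyper-Kähler varieties this follows from the Hodge conjecture by
Taelman's theorem), or if the isomorphism of the cohomologies of `X` and `X'` given by the Mukai
vector, composed with some automorphism of the noncommutative motive, respects the grading.
-/

set_option autoImplicit false

open CategoryTheory Limits MonoidalCategory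

namespace Pool.Agent.Results.MP_5c0b30_ag.KimuraFinitePartners

open Pool.Agent.Y112.SR Pool.Agent.Y112.KD Pool.Agent.X264.KF

universe v u w v' u'

theorem result {C : Type u} [Category.{v} C] [Preadditive C] [Linear ℚ C] [MonoidalCategory C]
    [MonoidalPreadditive C] [MonoidalLinear ℚ C] [SymmetricCategory C] [IsIdempotentComplete C]
    {D : Type u'} [Category.{v'} D] [Preadditive D] [Linear ℚ D] [MonoidalCategory D]
    [MonoidalPreadditive D] [MonoidalLinear ℚ D] [SymmetricCategory D] [RightRigidCategory D]
    (hU : UnitQ D) {K : Type w} [Field K] (R : SuperRealisation D K)
    (π : C ⥤ D) [π.Additive] [π.Braided] [π.Faithful] (𝒲 : Weights π R) (M N : C)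
    (ψ : π.obj M ≅ π.obj N) :
    (IsKimuraFinite M ↔ IsKimuraFinite N) ∧
    (IsKimuraFinite M →
      (HomologicallyIsomorphic π R M N → Nonempty (M ≅ N)) ∧
      (Nonempty (M ≅ N) ↔ ∃ φ : π.obj M ≅ π.obj N, 𝒲.Graded φ)) :=
  ⟨kf_partner hU 𝒲 ψ, fun h => ⟨fun h1 => iso_of_hom (R := R) hU (kf_map π h)
    ((kf_map π h).of_iso ψ) h1, iso_iff_graded hU 𝒲 h⟩⟩

end Pool.Agent.Results.MP_5c0b30_ag.KimuraFinitePartners
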