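import Pool.Agent.X268.HS.Mot

/-!
# Motives and Hodge structures of derived equivalent varieties, in particular of fourfolds

Let `X` and `Y` be derived equivalent smooth projective varieties of dimension `n` over a field of
characteristic zero. Fix a polarised Tannakian category of motives in which `X` and `Y` have a
cohomology with algebraic classes: rational Hodge structures, André motives, or, if the Lefschetz
standard conjecture holds for `X` and `Y`, homological motives. Let `A` be the `ℚ`-algebra spanned
by the image of its (reductive) group in the endomorphisms of the cohomology of `X` and `Y`, twisted
to the weights `0` and `1` (the span is taken over an algebraic closure, and is defined over `ℚ`),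
with the involution given by the adjoint for the polarisations. The modules over `A` considered here
are objects of the category, and the `A`-linear maps are its morphisms.

* `LefMod A m`: a graded semisimple module over `A` with the hard Lefschetz theorem, the Mukai
  pairing `B` and the Hodge-Riemann polarisation `σ`. If `m = n` this is the even cohomology,
  `deg i = H^{2 i}(X)(i)`; if `m = n - 1` the odd cohomology, `deg i = H^{2 i + 1}(X)(i)`, one of
  the two for even and the other for odd `n` having even `m`. Only for `i + j = m` the Mukai pairing
  on `deg i × deg j` is, up to sign, the Poincaré pairing; for `i + j < m` it involves the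
  canonical class.
* `JointPos X Y`: the polarisations are positive.
* `Isom X Y`: an isomorphism of modules over `A` which is an isometry for the Mukai pairings; the
  Mukai vector of the kernel of the equivalence gives one. It does not respect the degrees.

Below `2 c` is the even number among `n` and `n - 1` (cohomology in the degrees of the parity of
`n`), and `2 c' + 1` is the odd number among them (the other cohomology).

Theorem. (1) (Inertia) The classes in the Grothendieck group of the modules over `A` of
`2 deg (c - 1) + 2 deg (c - 3) + …` and of `deg c + 2 deg (c - 2) + 2 deg (c - 4) + …` are the same
for `X` and `Y`. (2) If `H^i(X)` and `H^i(Y)` are isomorphic for `i ≤ n - 3`, then the graded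
modules `H^*(X)` and `H^*(Y)` are isomorphic. (3) If moreover `M` and `N` are objects of a
preadditive category with these realisations, such that the homomorphisms of the realisations
which respect the degree come from morphisms, and endomorphisms with zero realisation are nilpotent,
then `M` and `N` are isomorphic.

For `n ≤ 4` the assumption of (2) is satisfied: `H^0` is the unit object, and `H^1(X) = H^1(Y)` by
the theorem of Popa and Schnell on `Pic^0`. So derived equivalent fourfolds have isomorphic Hodge
structures and isomorphic André motives in every degree (known for hyper-Kähler varieties, by
Taelman; for `n = 3` it follows from the theorem of Popa and Schnell), and isomorphic homological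
motives if the Lefschetz standard conjecture holds for them. If also their Chow motives are finite
dimensional in the sense of Kimura, the Chow motives are isomorphic by (3), applied to the category
with the two objects `h(X)` and `h(Y)`. In particular the conjecture of Orlov holds for fourfolds
whose Chow motive is of abelian type: this property is inherited by `Y` since `h(Y)` is a direct
summand of a sum of twists of `h(X)`, and it implies the Lefschetz standard conjecture (Lieberman,
Arapura) and finite dimensionality (Kimura).
-/

set_option autoImplicit false

open CategoryTheory

namespace Pool.Agent.Results.MP_5c0b30_ag.MotivicInertia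

open Pool.Agent.X268.HS

universe u v

theorem result {A : Type} [Ring A] [Algebra ℚ A] [StarRing A] {c c' : ℕ}
    (X Y : LefMod A (2 * c)) (X' Y' : LefMod A (2 * c' + 1)) (pos : JointPos X Y)
    (Φ : Isom X Y) (φ' : X'.Iso Y'.toLData) :
    (∀ (T : Type) [AddCommGroup T] [Module ℚ T] [Module A T] [IsScalarTower ℚ A T]
      [FiniteDimensional ℚ T], oddSum T X.toLData c = oddSum T Y.toLData c ∧
        evenSum T X.toLData c = evenSum T Y.toLData c) ∧
    (LowIso X Y (c - 2) → LowIso X' Y' (c' - 1) → GrIso X Y ∧ GrIso X' Y' ∧
      ∀ {C : Type u} [Category.{v} C] [Preadditive C] (M N : C),
        Realised M N X.toLData Y.toLData X'.toLData Y'.toLData → Nonempty (M ≅ N)) := by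
  refine ⟨fun T _ _ _ _ _ => inertia_mult pos Φ T, fun h h' => ?_⟩
  have h1 := iso_even pos Φ rfl fun i h0 hi => h i h0 (by omega)
  have h2 := iso_odd φ' rfl fun i h0 hi => h' i h0 (by omega)
  exact ⟨h1, h2, fun M N 𝓡 => iso_of_graded 𝓡 h1 h2⟩

end Pool.Agent.Results.MP_5c0b30_ag.MotivicInertia
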