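import Pool.Agent.X268.SE.Main

/-!
# Motives of derived equivalent varieties: relative inertia

Let `f : X → S` and `g : Y → S` be morphisms from smooth projective varieties of dimension
`n = m + 1` over an algebraically closed field of characteristic zero to a projective variety, and
suppose that there is an `S`-linear equivalence `D(X) ≃ D(Y)` (a Fourier-Mukai transform whose
kernel is supported on `X ×_S Y`).  Let `l` be the inverse image of an ample class of `S`.  Examples:

* `S` is a point, `l = 0`: every equivalence;
* `K_X` (or `-K_X`) is semiample and `f` is the (anti) pluricanonical morphism: every equivalence
  commutes with the Serre functors, so `K_Y` (`-K_Y`) is semiample and the equivalence is linear over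
  the base of the pluricanonical morphisms;
* `X` has no vector fields and `f` is the Albanese morphism: every equivalence then identifies
  `Pic⁰(X)` with `Pic⁰(Y)` (Rouquier; Popa, Schnell).

As in `MotivicInertia` fix a polarised Tannakian category of motives in which `X` and `Y` have a
cohomology with algebraic classes (rational Hodge structures over `ℂ`, André motives, or homological
motives if the Lefschetz standard conjecture holds for `X` and `Y`), and let `A` be the `ℚ`-algebra
with involution such that the subquotients of the cohomology are the modules over `A`.

* `E`, `O` (`F`, `P` for `Y`): the even and the odd cohomology, polarised Lefschetz modules of top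
  degrees `n` and `n - 1` with `deg i = H^{2 i}(X)(i)` and `deg i = H^{2 i + 1}(X)(i)`, together with
  the product with `l`.  `RelMod`: by the relative hard Lefschetz theorem and the generalised
  Hodge-Riemann relations (de Cataldo, Migliorini) the first vectors of the Jordan blocks of length
  `j + 1` of `l` form a polarised Lefschetz module of top degree `n - j` (`n - 1 - j`) with the form
  `B(x, l ^ j y)`, `B` the Mukai pairing.  By the decomposition theorem it is the `l`-primitive part
  of the sum of the `H^{-j}(S, ᵖH^i(f_* ℚ[n]))`, and its part in the cohomological degree `w` belongs
  to the perverse degree `i = w + j - n`.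
* `RIsom`: the isometries for the Mukai pairings given by the Mukai vector of the kernel; they
  commute with `l`.  `RelPos`: positivity of the polarisations of the blocks.
* `Low`: the blocks of `X` and `Y` are isomorphic in the perverse degrees at most `-3`.
* `LowExcept`: the same with the exception of the classes of degree `2` in the blocks of length one,
  which are only supposed to be isomorphic up to Tate classes.
* `K`, `L`: the same cohomology with complex coefficients and with its Hodge decomposition, with the
  isometry `SFM` given by the Mukai vector.  `RGives`: the Hodge numbers are additive functions of
  the modules.  `LibgoberWood`: the formula of Libgober and Wood for the Chern number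
  `C = c₁ c_{n-1}`.

Theorem.
1. If the blocks are isomorphic in the perverse degrees at most `-3`, then the graded modules
   `H^*(X)` and `H^*(Y)` are isomorphic.
2. Let `n ≥ 5`, and suppose the same with the exception of the Tate classes of degree `2` in the
   blocks of length one.  Then `H^*(X)` and `H^*(Y)` are isomorphic if and only if
   `c₁ c_{n-1}(X) = c₁ c_{n-1}(Y)`.
3. In these cases, objects `M` and `N` of a preadditive category with these realisations are
   isomorphic, if the homomorphisms of the realisations which respect the degree come from
   morphisms, and endomorphisms with zero realisation are nilpotent.

Applications.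
* The assumption of (1) holds, in any dimension `n`, if all the fibres of `f` and `g` have dimension
  at most two, or the defects of semismallness are at most two (there are no perverse degrees below
  `-2`), or if all the fibres are connected of dimension three (the perverse cohomology in degree
  `-3` is the intersection complex of `S`, for `f` and for `g`).  So the Hodge structures and the André motives of
  `X` and `Y` are isomorphic in every degree, and the Chow motives are isomorphic if the Chow motive
  of `X` is of abelian type (then the same holds for `Y`, the Lefschetz standard conjecture holds and
  the motives are finite dimensional): this is the conjecture of Orlov for such equivalences, for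
  example for all varieties of abelian type with semiample canonical or anticanonical class whose
  (anti) pluricanonical morphism has fibres of dimension at most two, or only fibres of dimension
  three.
* For `n = 5` and `l = 0` the assumption of (2) is that `H^2(X)` and `H^2(Y)` are isomorphic up to
  Tate classes, since `H^1(X)` and `H^1(Y)` are isomorphic by the theorem of Popa and Schnell.  This
  holds for `S`-linear equivalences if the generic fibres of `X → S` and `Y → S` have dimension at
  most four: up to the classes of divisors which do not dominate `S`, `H^2(X)` is, by the
  decomposition theorem, the sum of the pure parts of `H^i(U, R^j f_* ℚ)`, `i + j = 2`, for `U ⊂ S`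
  small, and `R^j f_* ℚ` and `R^j g_* ℚ` (the motives `h^j` of the generic fibres) are isomorphic by
  `MotivicInertia` for the generic fibres.  In particular let `K_X` or `-K_X` be semiample and not
  torsion.  Then also `c₁ c₄(X) = c₁ c₄(Y)` (see `MP_b4fe5e_ag.SemiampleCanonicalClass`: Toda's
  theorem on divisors in `|m K|` and the adjunction formula).  So derived equivalent fivefolds with
  semiample canonical or anticanonical class which is not torsion have isomorphic Hodge structures
  and André motives in every degree, and isomorphic Chow motives if these are of abelian type.
-/

set_option autoImplicit false

open CategoryTheory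

namespace Pool.Agent.Results.MP_5c0b30_ag.RelativeMotivicInertia

open Pool.Agent.X268.HS Pool.Agent.X268.SD Pool.Agent.X268.SE
open Pool.Agent.X268.DH (Fib RelPol SFM)

universe u v

theorem result {A : Type} [Ring A] [Algebra ℚ A] [StarRing A] {m : ℕ} (E F : RelMod A (m + 1))
    (O P : RelMod A m) (pE : RelPos E F) (Φ : RIsom E F) (pO : RelPos O P) (Ψ : RIsom O P) :
    (Low E F → Low O P → SameCoh E F O P) ∧
    (4 ≤ m → LowExcept E F → Low O P → ∀ (η : Count A) (K L : Fib (m + 1)), RelPol K → RelPol L →
      Nonempty (SFM K L) → RGives η E O K → RGives η F P L →
      ∀ C D : ℤ, LibgoberWood K.toKRing C → LibgoberWood L.toKRing D →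
        (C = D ↔ SameCoh E F O P)) ∧
    (SameCoh E F O P → ∀ {𝒞 : Type u} [Category.{v} 𝒞] [Preadditive 𝒞] (M N : 𝒞),
      Realised M N E.toLData F.toLData O.toLData P.toLData → Nonempty (M ≅ N)) := by
  have key : Low E F → Low O P → SameCoh E F O P := fun hE hO =>
    ⟨rel_graded pE Φ hE, rel_graded pO Ψ hO⟩
  refine ⟨key, ?_, fun h _ _ _ M N 𝓡 =>
    iso_of_graded 𝓡 h.1 h.2⟩
  rintro hm hE hO η K L hKp hLp ⟨fm⟩ hK hL C D hC hD
  constructor
  · rintro rfl
    exact key (low_of_except hm hKp hLp fm hK hL hE hO C hC hD) hO
  · intro h
    exact chern_of_hodge (K := K.toKRing) (L := L.toKRing)
      (hodge_of_graded hK.1 hL.1 h.1 h.2) hC hD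

end Pool.Agent.Results.MP_5c0b30_ag.RelativeMotivicInertia
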