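import Pool.Agent.X308.O.Corner

/-!
# Orlov's conjecture when the correspondences of low codimension are decomposable

`𝒱` is a class of smooth projective geometrically irreducible varieties over the field `k` closed
under products (for example all of them), `C` the Chow groups with rational coefficients (in the
form of their formal properties, `IsChowProj`).

Let `X` and `Y` be of the same dimension `n`, and let `v ∈ CH^*(X × Y)` and `w ∈ CH^*(Y × X)` be
correspondences of mixed degrees which are inverse to each other. If `X` and `Y` are derived
equivalent, such `v` and `w` exist: the Mukai vectors of the kernels of an equivalence and of its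
inverse (Orlov; Grothendieck-Riemann-Roch).

`LowDecomposable C n v` says that the components of `v` in `CH^i(X × Y)`, `i < n`, are decomposable:
sums of products `α × β`. The projector `tproj C a b = Δ_X - ∑ a_i × b_i` for a basis `b` of the
cycles on `X` modulo numerical equivalence and the dual basis `a` defines the transcendental motive
`t(X)`, and `h(X)` is the sum of `t(X)` and of Lefschetz motives.

Theorem.
(1) If `v` and `w` have this property then `t(X) ≅ t(Y)`; and `h(X) ≅ h(Y)` if moreover the ranks of
`CH^m(X)` and `CH^m(Y)` modulo numerical equivalence are the same for all `m`.
(2) The property holds for all `v` and `w` if the motives of `X` and of `Y` are sums of Lefschetz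
motives and of direct summands of motives `h(S)(-e)`, with the same `e`, of surfaces `S` with
`b_1(S) = 0` (more precisely: of surfaces for which divisors on the products `S × T` split).

By a conjecture of Murre all correspondences of codimension `< n` are decomposable if the cohomology
of `X` and `Y` is algebraic outside the middle degree, for example for Calabi-Yau threefolds.

Proof of (1): a component `w_j v_i`, `i + j = 2 n`, `i ≠ n`, of degree zero of the composition of `v`
and `w` involves a component of codimension `< n`, so `v_n` and `w_n` are inverse to each other up
to decomposable correspondences, and these have square zero on `t(X)`.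
-/

set_option autoImplicit false

universe u v

namespace Pool.Agent.Results.MP_5c0b30_ag.UngradedMotives

open Pool.Agent.H914 Pool.Agent.W492.BB Pool.Agent.W550.Corr Pool.Agent.TH133 Pool.Agent.X308.O

/-- Varieties `X` and `Y` of the same dimension with inverse correspondences `v` and `w` of mixed
degrees (for example derived equivalent ones) have isomorphic transcendental motives, and
isomorphic motives if the ranks of the groups of cycles modulo numerical equivalence agree,
provided that the components of `v` and `w` of codimension less than `dim X` are decomposable; this
holds for sums of Lefschetz motives and summands of `h(S)(-e)`, `S` surfaces with `b_1 = 0`. -/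
theorem result {k : Type u} [Field k] {𝒱 : VarClass k} (C : TheoryData.{u, v, 0} 𝒱 ℚ)
    [IsChowProj C] (X Y : 𝒱.Obj) (hd : Y.dim = X.dim) (v : C.A (X.prod Y)) (w : C.A (Y.prod X))
    (h : AreInverse C v w) {r s : ℕ} (p : Fin r → ℤ) (a b : Fin r → C.A X)
    (hB : IsNumBasis C p a b) (q : Fin s → ℤ) (a' b' : Fin s → C.A Y)
    (hB' : IsNumBasis C q a' b') :
    (LowDecomposable C X.dim v → LowDecomposable C X.dim w →
      IsoMotives C (tproj C a b) (tproj C a' b') ∧
        (SameRanks p q → IsoMotives C (dg C X) (dg C Y))) ∧
    (∀ (Q : 𝒱.Obj → Prop) (e : ℤ), DivisorsSplit C Q → TatePlusSurfaces C Q e X →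
      TatePlusSurfaces C Q e Y → LowDecomposable C X.dim v ∧ LowDecomposable C X.dim w) :=
  ⟨fun hv hw => orlov hd h hB hB' hv hw, fun _ _ hQ hX hY =>
    ⟨low_of_surfaces hQ hd hX hY v, hd ▸ low_of_surfaces hQ hd.symm hY hX w⟩⟩

end Pool.Agent.Results.MP_5c0b30_ag.UngradedMotives
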